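import Mathlib

/-!
# Coordinates of a power series ring (CH-ALL)

If `w_1, .., w_m` generate the ideal `(X_1, .., X_m)` of `K⟦X_1, .., X_m⟧` then the substitution
`X_i ↦ w_i` is an automorphism of the `K`-algebra `K⟦X_1, .., X_m⟧`, and it preserves the order.
-/

namespace Pool.Agent.H44.CA

open MvPowerSeries

variable {K : Type*} [CommRing K] {m : ℕ}

theorem order_sub_ge {σ : Type*} {f g : MvPowerSeries σ K} {n : ℕ∞} (hf : n ≤ f.order)
    (hg : n ≤ g.order) : n ≤ (f - g).order := by
  rw [sub_eq_add_neg]
  refine le_trans (le_min hf ?_) min_order_le_add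
  rwa [order_neg]

theorem order_add_ge {σ : Type*} {f g : MvPowerSeries σ K} {n : ℕ∞} (hf : n ≤ f.order)
    (hg : n ≤ g.order) : n ≤ (f + g).order :=
  le_trans (le_min hf hg) min_order_le_add

theorem order_sum_ge {σ ι : Type*} {f : ι → MvPowerSeries σ K} {s : Finset ι} {n : ℕ∞}
    (hf : ∀ i ∈ s, n ≤ (f i).order) : n ≤ (∑ i ∈ s, f i).order := by
  classical
  induction s using Finset.induction_on with
  | empty => simp
  | insert a s ha ih =>
    rw [Finset.sum_insert ha]
    exact order_add_ge (hf a (Finset.mem_insert_self a s))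
      (ih fun i hi => hf i (Finset.mem_insert_of_mem hi))

/-- two series which are close to each other -/
def Cl {σ : Type*} (p : ℕ) (a b : MvPowerSeries σ K) : Prop :=
  (p : ℕ∞) ≤ a.order ∧ (p : ℕ∞) ≤ b.order ∧ ((p + 1 : ℕ) : ℕ∞) ≤ (a - b).order

theorem Cl.one {σ : Type*} : Cl 0 (1 : MvPowerSeries σ K) 1 := by
  refine ⟨?_, ?_, ?_⟩ <;> simp

theorem Cl.mul {σ : Type*} {p q : ℕ} {a a' b b' : MvPowerSeries σ K} (h : Cl p a a')
    (h' : Cl q b b') : Cl (p + q) (a * b) (a' * b') := by
  obtain ⟨h1, h2, h3⟩ := h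
  obtain ⟨g1, g2, g3⟩ := h'
  refine ⟨?_, ?_, ?_⟩
  · push_cast
    exact le_trans (add_le_add h1 g1) le_order_mul
  · push_cast
    exact le_trans (add_le_add h2 g2) le_order_mul
  · have : a * b - a' * b' = (a - a') * b + a' * (b - b') := by ring
    rw [this]
    refine order_add_ge ?_ ?_
    · refine le_trans ?_ le_order_mul
      refine le_trans ?_ (add_le_add h3 g1)
      push_cast
      rw [add_right_comm]
    · refine le_trans ?_ le_order_mul
      refine le_trans ?_ (add_le_add h2 g3)
      push_cast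
      rw [add_assoc]

theorem Cl.pow {σ : Type*} {a a' : MvPowerSeries σ K} (h : Cl 1 a a') (n : ℕ) :
    Cl n (a ^ n) (a' ^ n) := by
  induction n with
  | zero => simpa using Cl.one
  | succ n ih => rw [pow_succ, pow_succ]; exact ih.mul h

theorem Cl.prod {σ ι : Type*} {a a' : ι → MvPowerSeries σ K} {e : ι → ℕ} (s : Finset ι)
    (h : ∀ i ∈ s, Cl (e i) (a i) (a' i)) :
    Cl (∑ i ∈ s, e i) (∏ i ∈ s, a i) (∏ i ∈ s, a' i) := by
  classical
  induction s using Finset.induction_on with
  | empty => simpa using Cl.one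
  | insert j s hj ih =>
    rw [Finset.sum_insert hj, Finset.prod_insert hj, Finset.prod_insert hj]
    exact (h j (Finset.mem_insert_self j s)).mul
      (ih fun i hi => h i (Finset.mem_insert_of_mem hi))

theorem order_subst_ge {w : Fin m → MvPowerSeries (Fin m) K} (hw : ∀ i, constantCoeff (w i) = 0)
    (f : MvPowerSeries (Fin m) K) : f.order ≤ (subst w f).order := by
  refine le_trans ?_ (le_order_subst (hasSubst_of_constantCoeff_zero hw) f)
  exact le_mul_of_one_le_left zero_le
    (le_iInf fun i => one_le_order_iff_constCoeff_eq_zero.2 (hw i))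

theorem order_X_ge {σ : Type*} (i : σ) : (1 : ℕ∞) ≤ (X i : MvPowerSeries σ K).order :=
  one_le_order_iff_constCoeff_eq_zero.2 (constantCoeff_X i)

theorem step {u : Fin m → MvPowerSeries (Fin m) K} (hu0 : ∀ i, constantCoeff (u i) = 0)
    (hu : ∀ i, (2 : ℕ∞) ≤ (u i - X i).order) (f : MvPowerSeries (Fin m) K) (n : ℕ)
    (hf : (n : ℕ∞) ≤ f.order) : ((n + 1 : ℕ) : ℕ∞) ≤ (subst u f - f).order := by
  have hs : HasSubst u := hasSubst_of_constantCoeff_zero hu0
  refine nat_le_order fun d hd => ?_
  have hX : f = subst (X : Fin m → MvPowerSeries (Fin m) K) f := by rw [subst_self]; rfl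
  have key : coeff d (subst u f) = coeff d (subst (X : Fin m → MvPowerSeries (Fin m) K) f) := by
    rw [coeff_subst hs, coeff_subst HasSubst.X]
    refine finsum_congr fun e => ?_
    by_cases he : e.degree < n
    · rw [coeff_of_lt_order (lt_of_lt_of_le (by exact_mod_cast he) hf), zero_smul, zero_smul]
    · congr 1
      have hc : Cl (∑ i ∈ e.support, e i) (∏ i ∈ e.support, u i ^ e i)
          (∏ i ∈ e.support, (X i : MvPowerSeries (Fin m) K) ^ e i) := by
        refine Cl.prod _ fun i _ => Cl.pow ⟨?_, ?_, ?_⟩ _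
        · exact_mod_cast one_le_order_iff_constCoeff_eq_zero.2 (hu0 i)
        · exact_mod_cast order_X_ge i
        · exact_mod_cast hu i
      have h0 : coeff d ((∏ i ∈ e.support, u i ^ e i) -
          ∏ i ∈ e.support, (X i : MvPowerSeries (Fin m) K) ^ e i) = 0 := by
        refine coeff_of_lt_order (lt_of_lt_of_le ?_ hc.2.2)
        have : d.degree < (∑ i ∈ e.support, e i) + 1 := by
          have h1 : e.degree = ∑ i ∈ e.support, e i := rfl
          omega
        exact_mod_cast this
      rw [map_sub, sub_eq_zero] at h0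
      exact h0
  rw [map_sub, key, ← hX, sub_self]

theorem bij_of_step (S : MvPowerSeries (Fin m) K →ₐ[K] MvPowerSeries (Fin m) K)
    (hS : ∀ (f : MvPowerSeries (Fin m) K) (n : ℕ), (n : ℕ∞) ≤ f.order →
      ((n + 1 : ℕ) : ℕ∞) ≤ (S f - f).order) : Function.Bijective S := by
  have hS' : ∀ (f : MvPowerSeries (Fin m) K) (n : ℕ), (n : ℕ∞) ≤ f.order →
      (n : ℕ∞) ≤ (S f).order := by
    intro f n hf
    have h1 := hS f n hf
    have : S f = (S f - f) + f := by ring
    rw [this]
    refine order_add_ge (le_trans ?_ h1) hf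
    exact_mod_cast Nat.le_succ n
  constructor
  · rw [injective_iff_map_eq_zero]
    intro f hf
    by_contra hne
    obtain ⟨n, hn⟩ := ENat.ne_top_iff_exists.1 (fun h => hne (order_eq_top_iff.1 h) :
      f.order ≠ ⊤)
    have := hS f n (le_of_eq hn)
    rw [hf, zero_sub, order_neg, ← hn] at this
    have h2 : n + 1 ≤ n := by exact_mod_cast this
    omega
  · intro g
    set N : MvPowerSeries (Fin m) K → MvPowerSeries (Fin m) K := fun h => h - S h with hN
    have hNk : ∀ k : ℕ, (k : ℕ∞) ≤ (N^[k] g).order := by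
      intro k
      induction k with
      | zero => simp
      | succ k ih =>
        rw [Function.iterate_succ_apply']
        have := hS _ k ih
        rw [← order_neg] at this
        simpa [hN] using this
    set f : MvPowerSeries (Fin m) K := fun d => ∑ j ∈ Finset.range (d.degree + 1),
      coeff d (N^[j] g) with hf
    have hcf : ∀ d, coeff d f = ∑ j ∈ Finset.range (d.degree + 1), coeff d (N^[j] g) :=
      fun d => rfl
    have hfk : ∀ k : ℕ, (k : ℕ∞) ≤ (f - ∑ j ∈ Finset.range k, N^[j] g).order := by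
      intro k
      refine nat_le_order fun d hd => ?_
      rw [map_sub, map_sum, hcf, sub_eq_zero]
      refine Finset.sum_subset (Finset.range_mono hd) fun j _ hj => ?_
      refine coeff_of_lt_order (lt_of_lt_of_le ?_ (hNk j))
      simp only [Finset.mem_range, not_lt] at hj
      exact_mod_cast hj
    have hSk : ∀ k : ℕ, S (∑ j ∈ Finset.range k, N^[j] g) = g - N^[k] g := by
      intro k
      induction k with
      | zero => simp
      | succ k ih =>
        rw [Finset.sum_range_succ, map_add, ih, Function.iterate_succ_apply']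
        simp only [hN]
        ring
    refine ⟨f, ?_⟩
    rw [← sub_eq_zero]
    ext d
    have h1 : S f - g = S (f - ∑ j ∈ Finset.range (d.degree + 1), N^[j] g) -
        N^[d.degree + 1] g := by
      rw [map_sub, hSk]; ring
    have h2 : ((d.degree + 1 : ℕ) : ℕ∞) ≤ (S f - g).order := by
      rw [h1]
      exact order_sub_ge (hS' _ _ (hfk _)) (hNk _)
    rw [coeff_of_lt_order (lt_of_lt_of_le (by exact_mod_cast Nat.lt_succ_self _) h2)]
    simp

theorem constantCoeff_subst' {w : Fin m → MvPowerSeries (Fin m) K}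
    (hw : ∀ i, constantCoeff (w i) = 0) (f : MvPowerSeries (Fin m) K) :
    constantCoeff (subst w f) = constantCoeff f := by
  have hs : HasSubst w := hasSubst_of_constantCoeff_zero hw
  have h1 : constantCoeff (subst w (f - algebraMap K _ (constantCoeff f))) = 0 := by
    refine constantCoeff_subst_eq_zero hs hw ?_
    rw [map_sub, MvPowerSeries.algebraMap_apply, constantCoeff_C]
    simp
  rw [subst_sub hs, map_sub, sub_eq_zero] at h1
  rw [h1, ← coe_substAlgHom hs, AlgHom.commutes, MvPowerSeries.algebraMap_apply, constantCoeff_C]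
  simp

theorem order_sub_C_ge (f : MvPowerSeries (Fin m) K) :
    (1 : ℕ∞) ≤ (f - algebraMap K _ (constantCoeff f)).order := by
  rw [one_le_order_iff_constCoeff_eq_zero, map_sub, MvPowerSeries.algebraMap_apply, constantCoeff_C]
  simp

theorem coeff_mul_X_single (f : MvPowerSeries (Fin m) K) (i j : Fin m) :
    coeff (Finsupp.single i 1) (f * X j) = if i = j then constantCoeff f else 0 := by
  rw [X, coeff_mul_monomial]
  by_cases h : i = j
  · subst h; simp
  · rw [if_neg, if_neg h]
    intro hle
    have := hle j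
    simp [Finsupp.single_apply, h] at this

/-- the substitution `X i ↦ w i` is an automorphism -/
theorem exists_coord (w : Fin m → MvPowerSeries (Fin m) K)
    (hw : Ideal.span (Set.range w) =
      Ideal.span (Set.range (X : Fin m → MvPowerSeries (Fin m) K))) :
    ∃ ψ : MvPowerSeries (Fin m) K ≃ₐ[K] MvPowerSeries (Fin m) K,
      (∀ i, ψ (X i) = w i) ∧ (∀ f, ψ f = subst w f) ∧ (∀ f, (ψ f).order = f.order) ∧
        (∀ f, constantCoeff (ψ f) = constantCoeff f) := by
  classical
  have hX0 : ∀ x ∈ Ideal.span (Set.range (X : Fin m → MvPowerSeries (Fin m) K)),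
      constantCoeff x = 0 := by
    intro x hx
    obtain ⟨c, rfl⟩ := Ideal.mem_span_range_iff_exists_fun.1 hx
    simp
  have hw0 : ∀ i, constantCoeff (w i) = 0 := fun i =>
    hX0 _ (hw ▸ Ideal.subset_span (Set.mem_range_self i))
  have hsw : HasSubst w := hasSubst_of_constantCoeff_zero hw0
  have ha : ∀ i, ∃ c : Fin m → MvPowerSeries (Fin m) K, ∑ k, c k * X k = w i := fun i =>
    Ideal.mem_span_range_iff_exists_fun.1 (hw ▸ Ideal.subset_span (Set.mem_range_self i))
  have hb : ∀ i, ∃ c : Fin m → MvPowerSeries (Fin m) K, ∑ k, c k * w k = X i := fun i =>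
    Ideal.mem_span_range_iff_exists_fun.1
      (hw.symm ▸ Ideal.subset_span (Set.mem_range_self i))
  choose a ha using ha
  choose b hb using hb
  set α : Matrix (Fin m) (Fin m) K := Matrix.of fun i k => constantCoeff (a i k) with hα
  set β : Matrix (Fin m) (Fin m) K := Matrix.of fun i k => constantCoeff (b i k) with hβ
  have hcw : ∀ j k, coeff (Finsupp.single k 1) (w j) = α j k := by
    intro j k
    rw [← ha j, map_sum]
    simp [coeff_mul_X_single, hα]
  have hβα : β * α = 1 := by
    ext i k
    have h1 : coeff (Finsupp.single k 1) (X i : MvPowerSeries (Fin m) K) =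
        coeff (Finsupp.single k 1) (∑ j, b i j * w j) := by rw [hb]
    have h2 : ∀ j, b i j * w j = ∑ l, (b i j * a j l) * X l := by
      intro j
      rw [← ha j, Finset.mul_sum]
      exact Finset.sum_congr rfl fun l _ => by ring
    rw [map_sum] at h1
    rw [Matrix.mul_apply, Matrix.one_apply]
    have h3 : ∀ j, coeff (Finsupp.single k 1) (b i j * w j) = β i j * α j k := by
      intro j
      rw [h2 j, map_sum]
      simp [coeff_mul_X_single, hα, hβ]
    rw [Finset.sum_congr rfl fun j _ => h3 j] at h1
    rw [← h1, coeff_X]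
    by_cases h : i = k
    · subst h; simp
    · rw [if_neg, if_neg h]
      intro h'
      exact h (Finsupp.single_left_injective one_ne_zero h').symm
  have hαβ : α * β = 1 := mul_eq_one_comm.1 hβα
  set ℓ : Fin m → MvPowerSeries (Fin m) K := fun i => ∑ j, β i j • X j with hℓ
  have hℓ0 : ∀ i, constantCoeff (ℓ i) = 0 := by
    intro i
    simp [hℓ, map_sum]
  have hsℓ : HasSubst ℓ := hasSubst_of_constantCoeff_zero hℓ0
  set Sw := substAlgHom (R := K) hsw with hSw
  set Sℓ := substAlgHom (R := K) hsℓ with hSℓ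
  have hSwa : ∀ f, Sw f = subst w f := fun f => by rw [hSw, coe_substAlgHom]
  have hSℓa : ∀ f, Sℓ f = subst ℓ f := fun f => by rw [hSℓ, coe_substAlgHom]
  have hSwX : ∀ i, Sw (X i) = w i := fun i => by rw [hSwa, subst_X hsw]
  have hSℓX : ∀ i, Sℓ (X i) = ℓ i := fun i => by rw [hSℓa, subst_X hsℓ]
  -- Sw ∘ Sℓ
  have h1 : ∀ i, (2 : ℕ∞) ≤ (Sw (ℓ i) - X i).order := by
    intro i
    have : Sw (ℓ i) - X i = ∑ j, -((b i j - algebraMap K _ (constantCoeff (b i j))) * w j) := by
      rw [← hb i]
      simp only [hℓ]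
      rw [map_sum, ← Finset.sum_sub_distrib]
      refine Finset.sum_congr rfl fun j _ => ?_
      rw [map_smul, hSwX, Algebra.smul_def]
      simp only [hβ, Matrix.of_apply]
      ring
    rw [this]
    refine order_sum_ge fun j _ => ?_
    rw [order_neg]
    refine le_trans ?_ le_order_mul
    have := add_le_add (order_sub_C_ge (b i j))
      (one_le_order_iff_constCoeff_eq_zero.2 (hw0 j))
    simpa [one_add_one_eq_two] using this
  have h1' : Function.Bijective (Sw.comp Sℓ) := by
    refine bij_of_step _ fun f n hf => ?_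
    have hc : (Sw.comp Sℓ) f = subst (fun i => subst w (ℓ i)) f := by
      rw [AlgHom.comp_apply, hSwa, hSℓa, subst_comp_subst_apply hsℓ hsw]
    rw [hc]
    refine step (fun i => ?_) (fun i => ?_) f n hf
    · rw [constantCoeff_subst' hw0, hℓ0]
    · rw [← hSwa]; exact h1 i
  -- Sℓ ∘ Sw
  have h2 : ∀ i, (2 : ℕ∞) ≤ (Sℓ (w i) - X i).order := by
    intro i
    have hX : (X i : MvPowerSeries (Fin m) K) = ∑ k, α i k • ℓ k := by
      simp only [hℓ, Finset.smul_sum, smul_smul]
      rw [Finset.sum_comm]
      have : ∀ j, ∑ k, (α i k * β k j) • (X j : MvPowerSeries (Fin m) K) =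
          ((α * β) i j) • X j := by
        intro j
        rw [← Finset.sum_smul, Matrix.mul_apply]
      rw [Finset.sum_congr rfl fun j _ => this j, hαβ]
      simp [Matrix.one_apply]
    have : Sℓ (w i) - X i = ∑ k, (Sℓ (a i k) - algebraMap K _ (constantCoeff (a i k))) * ℓ k := by
      rw [hX, ← ha i, map_sum, ← Finset.sum_sub_distrib]
      refine Finset.sum_congr rfl fun k _ => ?_
      rw [map_mul, hSℓX, Algebra.smul_def]
      simp only [hα, Matrix.of_apply]
      ring
    rw [this]
    refine order_sum_ge fun k _ => ?_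
    refine le_trans ?_ le_order_mul
    have h3 : (1 : ℕ∞) ≤ (Sℓ (a i k) - algebraMap K _ (constantCoeff (a i k))).order := by
      rw [← constantCoeff_subst' hℓ0 (a i k), ← hSℓa]
      exact order_sub_C_ge _
    have := add_le_add h3 (one_le_order_iff_constCoeff_eq_zero.2 (hℓ0 k))
    simpa [one_add_one_eq_two] using this
  have h2' : Function.Bijective (Sℓ.comp Sw) := by
    refine bij_of_step _ fun f n hf => ?_
    have hc : (Sℓ.comp Sw) f = subst (fun i => subst ℓ (w i)) f := by
      rw [AlgHom.comp_apply, hSwa, hSℓa, subst_comp_subst_apply hsw hsℓ]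
    rw [hc]
    refine step (fun i => ?_) (fun i => ?_) f n hf
    · rw [constantCoeff_subst' hℓ0, hw0]
    · rw [← hSℓa]; exact h2 i
  have hbij : Function.Bijective Sw := by
    constructor
    · intro x y hxy
      apply h2'.1
      rw [AlgHom.comp_apply, AlgHom.comp_apply, hxy]
    · intro y
      obtain ⟨x, hx⟩ := h1'.2 y
      exact ⟨Sℓ x, by rw [← AlgHom.comp_apply, hx]⟩
  set ψ := AlgEquiv.ofBijective Sw hbij with hψ
  have hψa : ∀ f, ψ f = subst w f := fun f => by
    rw [hψ, AlgEquiv.ofBijective_apply, hSwa]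
  have hcc : ∀ f, constantCoeff (ψ f) = constantCoeff f := fun f => by
    rw [hψa, constantCoeff_subst' hw0]
  refine ⟨ψ, fun i => by rw [hψa, subst_X hsw], hψa, fun f => le_antisymm ?_ ?_, hcc⟩
  · -- the inverse is a substitution
    set v : Fin m → MvPowerSeries (Fin m) K := fun i => ψ.symm (X i) with hv
    have hv0 : ∀ i, constantCoeff (v i) = 0 := by
      intro i
      rw [← hcc, hv, AlgEquiv.apply_symm_apply, constantCoeff_X]
    have hsv : HasSubst v := hasSubst_of_constantCoeff_zero hv0
    have h3 : ∀ g, ψ (subst v g) = g := by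
      intro g
      rw [hψa, subst_comp_subst_apply hsv hsw]
      have : (fun i => subst w (v i)) = (X : Fin m → MvPowerSeries (Fin m) K) := by
        funext i
        rw [← hψa, hv, AlgEquiv.apply_symm_apply]
      rw [this, subst_self]
      rfl
    have h4 : subst v (ψ f) = f := ψ.injective (h3 (ψ f))
    have h5 := order_subst_ge hv0 (ψ f)
    rwa [h4] at h5
  · rw [hψa]
    exact order_subst_ge hw0 f

end Pool.Agent.H44.CA
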